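import Pool.Agent.Helper61.CAR.GoalsQ

/-!
# CAR-WIN (MP_d97caa_an): window operators of a ladder
-/

set_option autoImplicit false

open scoped ComplexOrder ZeroAtInfty InnerProductSpace ComplexConjugate Topology

namespace Pool.Agent.Helper16.CAR

open Pool.Agent.Helper61.CAR Pool.Agent.Helper34.CAR

section Abs

variable {H : Type} [NormedAddCommGroup H] [InnerProductSpace ℂ H] [CompleteSpace H]

/-- The differences of a sequence of projections. -/
noncomputable def Qf (P : ℕ → (H →L[ℂ] H)) : ℕ → (H →L[ℂ] H)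
  | 0 => P 0
  | q + 1 => P (q + 1) - P q

/-- The diagonal operator with values `c q` on the range of `Qf P q`, `q ≤ N`. -/
noncomputable def Opf (P : ℕ → (H →L[ℂ] H)) (N : ℕ) (c : ℕ → ℝ) : H →L[ℂ] H :=
  ∑ q ∈ Finset.range (N + 1), ((c q : ℝ) : ℂ) • Qf P q

omit [CompleteSpace H] in
theorem opf_eq (P : ℕ → (H →L[ℂ] H)) (N : ℕ) (c : ℕ → ℝ) :
    Opf P N c = (∑ q ∈ Finset.range N, ((c q - c (q + 1) : ℝ) : ℂ) • P q) +
      ((c N : ℝ) : ℂ) • P N := by
  unfold Opf
  induction N with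
  | zero => simp [Qf]
  | succ N ih =>
    rw [Finset.sum_range_succ, ih, Finset.sum_range_succ]
    simp only [Qf, Complex.ofReal_sub, sub_smul, smul_sub]
    abel

variable {P : ℕ → (H →L[ℂ] H)}

theorem qf_star (hs : ∀ q, star (P q) = P q) (q : ℕ) : star (Qf P q) = Qf P q := by
  cases q with
  | zero => exact hs 0
  | succ q => simp [Qf, hs]

omit [CompleteSpace H] in
theorem qf_mul_P (hm : ∀ q r, q ≤ r → P q * P r = P q) (q r : ℕ) (h : q ≤ r) :
    Qf P q * P r = Qf P q := by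
  cases q with
  | zero => exact hm 0 r h
  | succ q =>
    simp only [Qf, sub_mul]
    rw [hm _ _ h, hm _ _ (by omega)]

omit [CompleteSpace H] in
theorem qf_orth (hm : ∀ q r, q ≤ r → P q * P r = P q) (q r : ℕ) (h : q < r) :
    Qf P q * Qf P r = 0 := by
  obtain ⟨r, rfl⟩ : ∃ r', r = r' + 1 := ⟨r - 1, by omega⟩
  show Qf P q * (P (r + 1) - P r) = 0
  rw [mul_sub, qf_mul_P hm _ _ (by omega), qf_mul_P hm _ _ (by omega), sub_self]

theorem qf_orth' (hs : ∀ q, star (P q) = P q) (hm : ∀ q r, q ≤ r → P q * P r = P q)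
    (q r : ℕ) (h : q ≠ r) : Qf P q * Qf P r = 0 := by
  rcases lt_or_gt_of_ne h with h | h
  · exact qf_orth hm q r h
  · have := congrArg star (qf_orth hm r q h)
    simpa [qf_star hs] using this

theorem qf_idem (hs : ∀ q, star (P q) = P q) (hm : ∀ q r, q ≤ r → P q * P r = P q)
    (q : ℕ) : Qf P q * Qf P q = Qf P q := by
  cases q with
  | zero => exact hm 0 0 le_rfl
  | succ q =>
    have h1 : Qf P (q + 1) * P (q + 1) = Qf P (q + 1) := qf_mul_P hm _ _ le_rfl
    have h2 : Qf P (q + 1) * P q = 0 := by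
      have h3 : P (q + 1) * P q = P q := by
        have := congrArg star (hm q (q + 1) (by omega))
        simpa [hs] using this
      simp only [Qf, sub_mul]
      rw [h3, hm q q le_rfl, sub_self]
    show Qf P (q + 1) * (P (q + 1) - P q) = _
    rw [mul_sub, h1, h2, sub_zero]

theorem opf_star (hs : ∀ q, star (P q) = P q) (N : ℕ) (c : ℕ → ℝ) :
    star (Opf P N c) = Opf P N c := by
  simp [Opf, star_sum, qf_star hs]

theorem opf_mul (hs : ∀ q, star (P q) = P q) (hm : ∀ q r, q ≤ r → P q * P r = P q) (N : ℕ)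
    (c c' : ℕ → ℝ) : Opf P N c * Opf P N c' = Opf P N fun q => c q * c' q := by
  unfold Opf
  rw [Finset.sum_mul_sum]
  refine Finset.sum_congr rfl fun q hq => ?_
  rw [Finset.sum_eq_single q]
  · rw [smul_mul_smul_comm, qf_idem hs hm]
    push_cast
    rfl
  · intro r _ hr
    rw [smul_mul_smul_comm, qf_orth' hs hm q r (Ne.symm hr), smul_zero]
  · intro h
    exact absurd hq h

theorem inner_qf (hs : ∀ q, star (P q) = P q) (hm : ∀ q r, q ≤ r → P q * P r = P q)
    (q : ℕ) (x : H) : ⟪x, Qf P q x⟫_ℂ = ((‖Qf P q x‖ ^ 2 : ℝ) : ℂ) := by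
  have h1 : Qf P q x = Qf P q (Qf P q x) := by
    have := congrArg (fun T : H →L[ℂ] H => T x) (qf_idem hs hm q)
    exact this.symm
  have h2 : ⟪x, Qf P q (Qf P q x)⟫_ℂ = ⟪Qf P q x, Qf P q x⟫_ℂ := by
    conv_rhs => rw [← qf_star hs q]
    rw [ContinuousLinearMap.star_eq_adjoint, ContinuousLinearMap.adjoint_inner_left,
      ← ContinuousLinearMap.star_eq_adjoint, qf_star hs q]
  rw [h1, h2, ← h1, inner_self_eq_norm_sq_to_K]
  norm_num

theorem norm_opf (hs : ∀ q, star (P q) = P q) (hm : ∀ q r, q ≤ r → P q * P r = P q) (N : ℕ)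
    (c : ℕ → ℝ) (x : H) :
    ‖Opf P N c x‖ ^ 2 = ∑ q ∈ Finset.range (N + 1), c q ^ 2 * ‖Qf P q x‖ ^ 2 := by
  have h1 : ⟪Opf P N c x, Opf P N c x⟫_ℂ = ⟪x, Opf P N (fun q => c q * c q) x⟫_ℂ := by
    conv_lhs =>
      rw [show Opf P N c = star (Opf P N c) from (opf_star hs N c).symm]
    rw [ContinuousLinearMap.star_eq_adjoint, ContinuousLinearMap.adjoint_inner_left,
      ← ContinuousLinearMap.star_eq_adjoint, opf_star hs N c, ← opf_mul hs hm]
    rfl
  have h2 : ⟪x, Opf P N (fun q => c q * c q) x⟫_ℂ =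
      ((∑ q ∈ Finset.range (N + 1), c q ^ 2 * ‖Qf P q x‖ ^ 2 : ℝ) : ℂ) := by
    simp only [Opf, sum_apply, smul_apply, inner_sum,
      inner_smul_right, inner_qf hs hm]
    push_cast
    refine Finset.sum_congr rfl fun q _ => ?_
    ring
  have h3 := h1.trans h2
  rw [inner_self_eq_norm_sq_to_K] at h3
  apply Complex.ofReal_injective
  rw [← h3, Complex.ofReal_pow]
  rfl

theorem sum_norm_qf (hs : ∀ q, star (P q) = P q) (hm : ∀ q r, q ≤ r → P q * P r = P q) (N : ℕ)
    (x : H) : ∑ q ∈ Finset.range (N + 1), ‖Qf P q x‖ ^ 2 ≤ ‖x‖ ^ 2 := by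
  have h1 := norm_opf hs hm N (fun _ => 1) x
  have h2 : Opf P N (fun _ => 1) = P N := by
    rw [opf_eq]
    simp
  rw [h2] at h1
  simp only [one_pow, one_mul] at h1
  rw [← h1]
  have h3 : ⟪P N x, P N x⟫_ℂ = ⟪x, P N x⟫_ℂ := by
    conv_lhs =>
      rw [show P N = star (P N) from (hs N).symm]
    rw [ContinuousLinearMap.star_eq_adjoint, ContinuousLinearMap.adjoint_inner_left,
      ← ContinuousLinearMap.star_eq_adjoint, hs N]
    have := congrArg (fun T : H →L[ℂ] H => T x) (hm N N le_rfl)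
    show ⟪x, (P N * P N) x⟫_ℂ = _
    rw [hm N N le_rfl]
  have h4 : ‖P N x‖ ^ 2 ≤ ‖x‖ * ‖P N x‖ := by
    have h5 := norm_inner_le_norm (𝕜 := ℂ) x (P N x)
    rw [← h3, inner_self_eq_norm_sq_to_K] at h5
    simpa using h5
  have h6 : ‖P N x‖ ≤ ‖x‖ := by
    rcases (norm_nonneg (P N x)).eq_or_lt with h | h
    · rw [← h]; exact norm_nonneg x
    · nlinarith
  exact pow_le_pow_left₀ (norm_nonneg _) h6 2

end Abs

/-- The window operators (packet CAR-WIN). -/
theorem win (hBAND : S_BAND) : S_WIN := by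
  intro H _ _ _ V hV hfd S hS n N c δ hcN hcδ hδ hc1 hc0
  have : ∀ q, FiniteDimensional ℂ (V q) := hfd
  let P : ℕ → (H →L[ℂ] H) := fun q => (V q).starProjection
  have hs : ∀ q, star (P q) = P q := fun q => isSelfAdjoint_starProjection (V q)
  have hfix : ∀ q, ∀ x ∈ V q, P q x = x := fun q x hx =>
    Submodule.starProjection_eq_self_iff.mpr hx
  have hmem : ∀ q x, P q x ∈ V q := fun q x => Submodule.starProjection_apply_mem _ _
  have hm' : ∀ q r, q ≤ r → P r * P q = P q := by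
    intro q r hqr
    ext x
    exact hfix r _ (hV hqr (hmem q x))
  have hm : ∀ q r, q ≤ r → P q * P r = P q := by
    intro q r hqr
    have := congrArg star (hm' q r hqr)
    simpa [hs] using this
  have hOp : ∀ i, Opf P N (c i) =
      ∑ q ∈ Finset.range N, ((c i q - c i (q + 1) : ℝ) : ℂ) • P q := by
    intro i
    rw [opf_eq, hcN i N le_rfl]
    simp
  have hOpc : ∀ f g : ℕ → ℝ, (∀ q, f q = g q) → Opf P N f = Opf P N g := fun f g h => by
    rw [funext h]
  have hOp0 : Opf P N (fun _ => 0) = 0 := by simp [Opf]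
  refine ⟨fun i => Opf P N (c i), fun i => opf_star hs N _, ?_, ?_, ?_, ?_, ?_, ?_, ?_⟩
  · intro i j
    rw [opf_mul hs hm, opf_mul hs hm]
    exact hOpc _ _ fun q => mul_comm _ _
  · intro x
    simp only [norm_opf hs hm]
    rw [Finset.sum_comm]
    refine le_trans (Finset.sum_le_sum fun q _ => ?_) (sum_norm_qf hs hm N x)
    rw [← Finset.sum_mul]
    exact mul_le_of_le_one_left (by positivity) (hc1 q)
  · intro i j hij
    show Opf P N (c i) * Opf P N (c j) = 0
    rw [opf_mul hs hm, ← hOp0]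
    exact hOpc _ _ fun q => hc0 i j q hij
  · intro i a ha
    show ‖Opf P N (c i) * a - a * Opf P N (c i)‖ ≤ 2 * δ * ‖a‖
    rw [hOp i]
    refine hBAND H N P a (fun q => c i q - c i (q + 1)) δ hs hm ?_ ?_ hδ fun q _ => hcδ i q
    · intro q
      ext x
      exact (hfix (q + 1) _ (hS a ha q _ (hmem q x)).1).symm
    · intro q
      ext x
      exact (hfix (q + 1) _ (hS a ha q _ (hmem q x)).2).symm
  · intro i x
    show Opf P N (c i) x ∈ V N
    rw [hOp i, sum_apply]
    refine Submodule.sum_mem _ fun q hq => ?_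
    exact Submodule.smul_mem _ _ (hV (Finset.mem_range.mp hq).le (hmem q x))
  · intro i x hx
    show Opf P N (c i) x = _
    rw [hOp i, sum_apply]
    have h1 : ∀ q ∈ Finset.range N, (((c i q - c i (q + 1) : ℝ) : ℂ) • P q) x =
        ((c i q - c i (q + 1) : ℝ) : ℂ) • x := by
      intro q _
      rw [smul_apply, hfix q x (hV (Nat.zero_le q) hx)]
    rw [Finset.sum_congr rfl h1, ← Finset.sum_smul]
    congr 1
    rw [← Complex.ofReal_sum, Finset.sum_range_sub', hcN i N le_rfl, sub_zero]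
  · intro i hi
    show Opf P N (c i) * (1 - ∑ j, Opf P N (c j) * Opf P N (c j)) = 0
    have h1 : ∑ j, Opf P N (c j) * Opf P N (c j) = Opf P N fun q => ∑ j, c j q ^ 2 := by
      simp only [opf_mul hs hm]
      unfold Opf
      rw [Finset.sum_comm]
      refine Finset.sum_congr rfl fun q _ => ?_
      rw [← Finset.sum_smul]
      congr 1
      push_cast
      refine Finset.sum_congr rfl fun j _ => ?_
      ring
    rw [h1, mul_sub, mul_one, opf_mul hs hm, sub_eq_zero]
    refine hOpc _ _ fun q => ?_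
    by_cases h : c i q = 0
    · simp [h]
    · rw [hi q h, mul_one]

end Pool.Agent.Helper16.CAR
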